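import Pool.Agent.Q296.NF.Over

/-!
# Injectivity of the Abel-Jacobi map over the rational numbers: products of hypersurfaces

The question concerns all smooth proper varieties over `ℚ`, geometrically connected or not. We
consider the varieties `(X_1 × ⋯ × X_r)_F` over `ℚ`, where the `X_j` are smooth hypersurfaces over `ℚ`
of any dimensions and degrees and `F` is any number field (a cycle on such a variety is a cycle on
`X_1 × ⋯ × X_r` defined over `F`, and its Abel-Jacobi image is the family of the images for all the
embeddings of `F` in `ℂ`). We prove that the kernel of the Abel-Jacobi map is torsion for all these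
varieties and all codimensions if and only if it is torsion for the single hypersurfaces over `ℚ`

  `W : f(x_0, …, x_(a+1)) + (y_1^d - z_1^d) + ⋯ + (y_r^d - z_r^d) = 0`, `a ≤ ω(n)`, `n = dim W`,

in the codimensions `m` near the middle, `|2 m - n| ≤ φ(n)`, for a set `S` of pairs `(n, d)` with
arbitrarily large `n` of both parities and arbitrarily divisible `d`; `ω` and `φ` tend to infinity,
however slowly. So no extension of the field of definition is needed: cycles defined over `ℚ` on
single, almost diagonal hypersurfaces decide about cycles on products defined over any number field.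
-/

open CategoryTheory MonoidalCategory

universe v u w w'

namespace Pool.Agent.Results.MP_e28333_ag.HypersurfacesOverQ

open Pool.Agent.Q28.HJ (pow)
open Pool.Agent.Q296.NF

/-- **The Abel-Jacobi map over `ℚ` for products of hypersurfaces.** Let `T` be the category of Chow
motives over `ℚ` with rational coefficients, the smooth hypersurfaces over `ℚ` and the Abel-Jacobi
maps (`hT`: known facts). Let `S` be a set of pairs `(n, d)` which contains, for all `N` and `D` and
both parities, a pair with `n ≥ N` and `D ∣ d`, and let `ω, φ : ℕ → ℕ` tend to infinity. The following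
statements are equivalent.

1. `AJ^m` is injective on `CH^m_hom(W)_ℚ` for all hypersurfaces `W` with `(dim W, deg W) ∈ S` which
  are iterated suspensions `f(x) + (y_1^d - z_1^d) + ⋯ + (y_r^d - z_r^d) = 0` of hypersurfaces
  `X : f(x) = 0` with `dim X ≤ ω(dim W)`, and all `m` with `|2 m - dim W| ≤ φ(dim W)`.
2. `AJ^i` is injective on `CH^i_hom(-)_ℚ` for all `i` and all the smooth proper varieties
  `(X_1 × ⋯ × X_r)_F` over `ℚ`, for smooth hypersurfaces `X_j` over `ℚ` and number fields `F`.
3. The same for all motives `M` over `ℚ` which are obtained from motives of smooth hypersurfaces, the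
  unit and the Lefschetz motive by tensor products, direct sums and direct summands.
4. For all tensor products `M` of primitive motives of smooth hypersurfaces over `ℚ` (Artin motives
  are allowed as factors, `dim = 0`), of weight `N`: `CH^i(M)_ℚ = 0` if `2 i ≠ N` and `2 i ≠ N + 1`;
  `CH^i_hom(M)_ℚ = 0` if `2 i = N`; and `AJ^i` is injective on `CH^i(M)_ℚ` if `2 i = N + 1`. -/
theorem result {𝓜 : Type u} [Category.{v} 𝓜] [Preadditive 𝓜] [MonoidalCategory 𝓜]
    [MonoidalPreadditive 𝓜] [BraidedCategory 𝓜] {T : AJData.{v, u, w, w'} 𝓜} (hT : T.Facts)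
    (S : Set (ℕ × ℕ)) (hS : BothCofinal S) (ω φ : ℕ → ℕ)
    (hω : Filter.Tendsto ω Filter.atTop Filter.atTop)
    (hφ : Filter.Tendsto φ Filter.atTop Filter.atTop) :
    [∀ X W : T.Hyp, Relation.ReflTransGen T.Susp X W → (T.dim W, T.deg W) ∈ S →
        T.dim X ≤ ω (T.dim W) → ∀ m, 2 * m ≤ T.dim W + φ (T.dim W) →
          T.dim W ≤ 2 * m + φ (T.dim W) → T.Inj m (T.mot W),
      ∀ M : 𝓜, AJData.BaseChanged T M → ∀ i, T.Inj i M,
      ∀ M : 𝓜, T.Gen M → ∀ i, T.Inj i M,
      ∀ (N : ℕ) (M : 𝓜), T.IsProd N M →
        (∀ i, 2 * i ≠ N → 2 * i ≠ N + 1 → ∀ f : pow T.L i ⟶ M, f = 0) ∧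
          (∀ i, 2 * i = N → ∀ f : pow T.L i ⟶ M, T.null f → f = 0) ∧
            ∀ i, 2 * i = N + 1 → T.Inj i M].TFAE :=
  AJData.final_one hT S hS ω φ hω hφ

end Pool.Agent.Results.MP_e28333_ag.HypersurfacesOverQ
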