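import Pool.Agent.Q226.SC.ZQ

set_option autoImplicit false

/-!
# The Abel-Jacobi kernel on zero-cycles over `ℚ` and rational points of simply connected surfaces
-/

namespace Pool.Agent.Results.MP_e28333_ag.RationalPointsOnSurfaces

open Pool.Agent.Q226.SC

/-- Zero-cycles on smooth projective varieties over `ℚ` and the complex Abel-Jacobi map `i`.

1. For every smooth projective variety `X` over `ℚ` of positive dimension, a multiple of a zero-cycle
`z` on `X` is homologically trivial with Abel-Jacobi image `0` if and only if a multiple of it is
`E(t) - E(t')` for a family `E` over `ℚ` of effective zero-cycles on `X` parametrised by a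
geometrically simply connected smooth projective surface `T` over `ℚ` and two rational points
`t, t'` of `T`.

2. Hence the kernel of the Abel-Jacobi map on homologically trivial classes of zero-cycles is a
torsion group for all smooth projective varieties over `ℚ` if and only if any two rational points of
a geometrically simply connected smooth projective surface over `ℚ` are rationally equivalent up to
torsion.

3. This is the case if and only if the dimension of the space spanned by the differences of rational
points of `T` in `CH₀(T) ⊗ ℚ` is bounded, uniformly in these surfaces `T`. -/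
theorem result (G : Geo) (C : Cycles G) (Q : Arith C) (h : Facts C) (q : Q.Facts) (i : Q.Index) :
    (∀ X : Q.Sch, 1 ≤ G.dim (Q.geo X) → ∀ z : Q.Z X,
      ((∃ n : ℕ, 0 < n ∧ Q.AJKernel i X (n • z)) ↔
        ∃ (T : Q.Sch) (E : Q.FamQ T X) (t t' : Q.Pts T) (n : ℕ),
          Q.SCSurface T ∧ 0 < n ∧ n • z = Q.cyc E t - Q.cyc E t')) ∧
    ((∀ X : Q.Sch, 1 ≤ G.dim (Q.geo X) → Q.Injective i X) ↔
      ∀ T : Q.Sch, Q.SCSurface T → Q.PointsEquivalent T) ∧
    ((∀ T : Q.Sch, Q.SCSurface T → Q.PointsEquivalent T) ↔
      ∃ m : ℕ, ∀ T : Q.Sch, Q.SCSurface T → Q.RankBelow m T) :=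
  ⟨fun X hX z => aj_kernel_iff h q i X hX z, aj_injective_iff h q i, rank_law q⟩

end Pool.Agent.Results.MP_e28333_ag.RationalPointsOnSurfaces
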