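import Pool.Agent.Q129.BL.QMain

/-!
# The Abel–Jacobi conjecture over `ℚ` and rational varieties

The conjecture of Beilinson and Bloch (Q1): for all smooth proper varieties `X` over `ℚ` and all
`i ≥ 1` the kernel of the Abel–Jacobi map `CH^i(X)^0 → J^i(X_ℂ)` is a torsion group. We call this
`AJ(X, i)`.

Let `l` be a finite list of smooth projective varieties over `ℚ` whose disjoint union embeds in
`ℙ^n`, and `Y(l, n)` the blow-up of `ℙ^n` along this disjoint union, a smooth projective rational
variety of dimension `n`.

1. `AJ(Y(l, n), i)` holds if and only if `AJ(X, i - j)` holds for all members `X` of `l` and all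
  `0 < j < n - dim X`.
2. Let `i ≥ 1`, and let `l s`, `n s` be any exhausting sequence (each smooth projective variety over
  `ℚ` belongs to all but finitely many of the lists `l s`). Then Q1 in all codimensions `m ≤ i`, for
  all smooth proper varieties over `ℚ`, is true if and only if `AJ(Y(l s, n s), i + 1)` holds for
  infinitely many `s`. For instance Q1 in codimension two for all varieties is equivalent to Q1 in
  codimension three for rational varieties (in codimension two it is known for rational varieties).
3. Q1 in all codimensions is true if and only if `AJ(Y(l s, 2 N s - 1), N s)` holds for infinitely
  many `s`: only the middle cohomology of rational varieties matters.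

So if Q1 fails for one variety in codimension `m ≤ i`, it fails in codimension `i + 1` (or in the
middle codimension) for all but finitely many members of every exhausting sequence of such rational
varieties, however sparse.
-/

namespace Pool.Agent.Results.MP_e28333_ag.RationalVarietiesDecide

open Pool.Agent.Q129.BL

universe u

/-- **The Abel–Jacobi conjecture over `ℚ` and rational varieties.** Let `T` be the smooth proper
varieties over `ℚ`, their homologically trivial cycles and Abel–Jacobi maps (`hT`: known facts;
`T.Bl l n` is the blow-up of `ℙ^n` along the disjoint union of the members of `l`).

1. For all finite lists `l` of projective varieties, `n ≥ T.N0 l` and all `i`, the kernel of the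
  Abel–Jacobi map of the blow-up in codimension `i` is a torsion group if and only if this holds
  for all `X ∈ l` in all codimensions `i - j`, `0 < j < n - dim X`.
2. Let `l` be exhausting, `n s ≥ T.N0 (l s)`, and `n s > dim X + i` for all `X ∈ l s`. The kernels
  are torsion groups for all smooth proper varieties over `ℚ` and all codimensions `1 ≤ m ≤ i` if and
  only if this holds in codimension `i + 1` for the blow-up of `ℙ^(n s)` along the disjoint union of
  the members of `l s`, for infinitely many `s`.
3. Let `l` be exhausting, `2 N s - 1 ≥ T.N0 (l s)`, and `N s > dim X` for all `X ∈ l s`. The kernels
  are torsion groups for all smooth proper varieties over `ℚ` and all codimensions `m ≥ 1` if and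
  only if this holds in codimension `N s` for the blow-up of `ℙ^(2 N s - 1)` along the disjoint union
  of the members of `l s`, for infinitely many `s`. -/
theorem result (T : AJOverQ.{u}) (hT : T.Facts) :
    T.ForEachBlowUp ∧ T.CodimensionShift ∧ T.MiddleSuffices :=
  ⟨fun l n hp hl i => AJOverQ.blowup_iff hT l hp n hl i,
    fun i l n hE hd he => AJOverQ.codim_iff hT i l n hE hd he,
    fun l N hE hd he => AJOverQ.middle_iff hT l N hE hd he⟩

end Pool.Agent.Results.MP_e28333_ag.RationalVarietiesDecide
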